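import Mathlib

set_option autoImplicit false

namespace Pool.Agent.Results.MP_e13ffb_co.Counter

open Set Module

variable {d : ℕ}

/-- A lattice point as a point of `ℝ^d`. -/
def up (y : Fin d → ℤ) : Fin d → ℝ := fun i => y i

def IntConvex (S : Set (Fin d → ℤ)) : Prop :=
  ∀ x ∈ convexHull ℝ (up '' S), x ∈ convexHull ℝ (up '' {y ∈ S | ∀ i, |x i - y i| < 1})

def Para (k : ℕ) (A B : Set (Fin d → ℤ)) : Prop :=
  ∀ j, 1 ≤ j → j ≤ k → ∀ a b : Fin j → Fin d → ℤ, (∀ i, a i ∈ A) → (∀ i, b i ∈ B) →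
    ∑ i, a i ≠ ∑ i, b i

/-- `P` is the zero set in `L` of an affine function whose open sides see only `A`, only `B`. -/
def Sep (A B : Set (Fin d → ℤ)) (P L : AffineSubspace ℝ (Fin d → ℝ)) : Prop :=
  ∃ f : (Fin d → ℝ) →ᵃ[ℝ] ℝ, (∀ x, x ∈ P ↔ x ∈ L ∧ f x = 0) ∧
    ∀ y ∈ A ∪ B, up y ∈ L → (0 < f (up y) → y ∈ A) ∧ (f (up y) < 0 → y ∈ B)

def CondH (A B : Set (Fin d → ℤ)) : Prop :=
  ∃ k ≤ d, ∃ H : ℕ → AffineSubspace ℝ (Fin d → ℝ), H d = ⊤ ∧
    (∀ i, k ≤ i → i ≤ d → H i ≠ ⊥ ∧ finrank ℝ (H i).direction = i) ∧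
    ((∀ y ∈ A ∪ B, up y ∈ H k → y ∈ A) ∨ ∀ y ∈ A ∪ B, up y ∈ H k → y ∈ B) ∧
    ∀ i, k ≤ i → i < d → Sep A B (H i) (H (i + 1))

lemma cube (S : Set (Fin d → ℤ)) (h : ∀ y ∈ S, ∀ i, y i = 0 ∨ y i = 1) : IntConvex S := by
  intro x hx
  obtain ⟨ι, _, w, z, w0, w1, hz, rfl⟩ := mem_convexHull_iff_exists_fintype.1 hx
  choose y m e using hz
  obtain rfl : z = fun i => up (y i) := funext fun i => (e i).symm
  have s : ∑ i ∈ {i | w i ≠ 0}, w i = 1 := by rw [Finset.sum_filter_ne_zero, w1]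
  have := Finset.centerMass_mem_convexHull (s := up '' {t ∈ S | ∀ j, |(∑ i, w i • up (y i)) j - t j| < 1})
    {i | w i ≠ 0} (fun i _ => w0 i) (by rw [s]; exact one_pos) (z := fun i => up (y i))
    fun i hi => ⟨y i, ⟨m i, fun j => ?_⟩, rfl⟩
  · rwa [Finset.centerMass_filter_ne_zero, Finset.centerMass_eq_of_sum_1 _ _ w1] at this
  have p : 0 < w i := (w0 i).lt_of_ne' (by simpa using hi)
  have b : ∀ k, 0 ≤ w k * y k j ∧ 0 ≤ w k * (1 - y k j) := fun k => by
    rcases h _ (m k) j with q | q <;> simp [q, w0]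
  have b1 := Finset.single_le_sum (fun k _ => (b k).1) (Finset.mem_univ i)
  have b2 := Finset.single_le_sum (fun k _ => (b k).2) (Finset.mem_univ i)
  have b3 := Finset.sum_nonneg fun k (_ : k ∈ Finset.univ) => (b k).1
  have b4 := Finset.sum_nonneg fun k (_ : k ∈ Finset.univ) => (b k).2
  simp only [mul_sub, mul_one, Finset.sum_sub_distrib, w1] at b2 b4
  simp only [Finset.sum_apply, Pi.smul_apply, up, smul_eq_mul, abs_lt]
  rcases h _ (m i) j with q | q <;> simp only [q] at * <;> push_cast at * <;> constructor <;> linarith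

def a : Fin 3 → Fin 4 → ℤ := ![![0, 0, 0, 1], ![0, 0, 1, 0], ![1, 1, 0, 0]]

def b : Fin 3 → Fin 4 → ℤ := ![![0, 0, 0, 0], ![0, 1, 1, 1], ![1, 0, 1, 1]]

/-- The `d`-parallelogram condition does not imply Condition H. -/
theorem result : ∃ (d : ℕ) (A B : Set (Fin d → ℤ)), 1 ≤ d ∧ (A ∪ B).Finite ∧ A.Nonempty ∧
    B.Nonempty ∧ Disjoint A B ∧ IntConvex (A ∪ B) ∧ Para d A B ∧ ¬CondH A B := by
  have dj : ∀ i j, a i ≠ b j := by decide
  refine ⟨4, range a, range b, by decide, toFinite _, range_nonempty _, range_nonempty _,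
    disjoint_range_iff.2 dj, cube _ ?_, fun j j1 j4 p q hp hq => ?_, ?_⟩
  · rintro _ (⟨i, rfl⟩ | ⟨i, rfl⟩) <;> revert i <;> decide
  · choose u hu using hp
    choose v hv using hq
    rw [← funext hu, ← funext hv]
    clear hu hv
    revert u v
    interval_cases j <;> decide +kernel
  rintro ⟨k, k4, H, h4, -, h0, hs⟩
  have : ∀ i, k ≤ i → i ≤ 4 → ∀ t, up (a t) ∈ H i ∧ up (b t) ∈ H i := fun i ki i4 => by
    induction i4 using Nat.decreasingInduction with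
    | self => simp [h4]
    | of_succ i l ih =>
      obtain ⟨f, f1, f2⟩ := hs i ki l
      have ih := ih (by omega)
      have pa : ∀ t, 0 ≤ f (up (a t)) := fun t => not_lt.1 fun n =>
        let ⟨s, e⟩ := (f2 _ (.inl ⟨t, rfl⟩) (ih t).1).2 n; dj _ _ e.symm
      have pb : ∀ t, f (up (b t)) ≤ 0 := fun t => not_lt.1 fun n =>
        let ⟨s, e⟩ := (f2 _ (.inr ⟨t, rfl⟩) (ih t).2).1 n; dj _ _ e
      have e : 2 * f (up (a 0)) + 2 * f (up (a 1)) + f (up (a 2)) =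
          3 * f (up (b 0)) + f (up (b 1)) + f (up (b 2)) := by
        have : (2 : ℝ) • up (a 0) + (2 : ℝ) • up (a 1) + up (a 2) =
            (3 : ℝ) • up (b 0) + up (b 1) + up (b 2) := by
          ext i
          fin_cases i <;> simp [a, b, up] <;> norm_num
        have := congrArg f.linear this
        simp only [map_add, map_smul, smul_eq_mul] at this
        have g : ∀ x, f x = f.linear x + f 0 := fun x => by simpa using f.map_vadd 0 x
        simp only [g (up _)]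
        linarith
      have := pa 0; have := pa 1; have := pa 2; have := pb 0; have := pb 1; have := pb 2
      have z : ∀ t, f (up (a t)) ≤ 0 ∧ 0 ≤ f (up (b t)) := by
        simp only [Fin.forall_fin_succ, Fin.succ_zero_eq_one, Fin.succ_one_eq_two, IsEmpty.forall_iff]
        refine ⟨⟨?_, ?_⟩, ⟨?_, ?_⟩, ⟨?_, ?_⟩, trivial⟩ <;> linarith
      exact fun t => ⟨(f1 _).2 ⟨(ih t).1, (z t).1.antisymm (pa t)⟩,
        (f1 _).2 ⟨(ih t).2, (pb t).antisymm (z t).2⟩⟩
  have := this k le_rfl k4 0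
  rcases h0 with h | h
  · exact let ⟨s, e⟩ := h _ (.inr ⟨0, rfl⟩) this.2; dj _ _ e
  · exact let ⟨s, e⟩ := h _ (.inl ⟨0, rfl⟩) this.1; dj _ _ e.symm

end Pool.Agent.Results.MP_e13ffb_co.Counter
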